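import Mathlib

set_option autoImplicit false

/-!
# Size functions of minor-closed classes of matroids: definitions
-/

namespace Pool.Agent.R692.SZ

open scoped Matroid

/-- `N` is a `k`-point line: a matroid with `k` elements whose independent sets are the sets with at
most two elements, i.e. an isomorphic copy of the uniform matroid `U_{2,k}`. -/
def IsLine {α : Type} (N : Matroid α) (k : ℕ) : Prop :=
  N.E.encard = k ∧ ∀ I ⊆ N.E, (N.Indep I ↔ I.encard ≤ 2)

/-- `M` is in the class `U(q)`: no minor of `M` is isomorphic to `U_{2,q+2}`. -/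
def InU (q : ℕ) {α : Type} (M : Matroid α) : Prop := ∀ N : Matroid α, N ≤m M → ¬ IsLine N (q + 2)

/-- Isomorphism of matroids: a bijection of the ground sets preserving independence. -/
def Iso {α β : Type} (M : Matroid α) (N : Matroid β) : Prop :=
  ∃ e : M.E ≃ N.E, ∀ I : Set M.E,
    M.Indep (Subtype.val '' I) ↔ N.Indep (Subtype.val '' (e '' I))

/-- `G` has a minor isomorphic to `M`. -/
def HasMinor {α β : Type} (G : Matroid β) (M : Matroid α) : Prop :=
  ∃ N : Matroid β, N ≤m G ∧ Iso M N

/-- `M` is representable over a field with `r` elements. -/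
def Repr (r : ℕ) {α : Type} (M : Matroid α) : Prop :=
  ∃ (F : Type) (_ : Field F) (W : Type) (_ : AddCommGroup W) (_ : Module F W) (v : α → W),
    Nat.card F = r ∧ ∀ I ⊆ M.E, (M.Indep I ↔ LinearIndepOn F v I)

/-- The number of points (rank-one flats) of a matroid. -/
noncomputable def points {α : Type} (M : Matroid α) : ℕ∞ := {F | M.IsFlat F ∧ M.eRk F = 1}.encard

/-- The size function of a class of (finite) matroids: the supremum of the numbers of points of the
matroids of rank `n` in the class. -/
noncomputable def size (C : ∀ β : Type, Matroid β → Prop) (n : ℕ) : ℕ∞ :=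
  ⨆ (β : Type) (G : Matroid β) (_ : G.E.Finite ∧ C β G ∧ G.eRank = n), points G

end Pool.Agent.R692.SZ
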