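import Mathlib
import Pool.Agent.H594R3.TM
import Pool.Agent.R692.SZ.Defs

set_option autoImplicit false

namespace Pool.Agent.R692.SZ

open scoped Matroid
open Pool.Agent.H594R3.TM Module Submodule

/-- Independent sets of a minor. -/
theorem minor_indep {α : Type} {M N : Matroid α} (h : N ≤m M) :
    ∃ C : Set α, Disjoint N.E C ∧ ∀ J ⊆ N.E, (N.Indep J ↔ M.Indep (J ∪ C)) := by
  obtain ⟨C, D, rfl⟩ := h
  obtain ⟨I, hI⟩ := M.exists_isBasis' C
  refine ⟨I, ?_, ?_⟩
  · rw [Set.disjoint_left]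
    intro x hx hxI
    rw [Matroid.delete_ground, Matroid.contract_ground] at hx
    exact hx.1.2 (hI.subset hxI)
  · intro J hJ
    rw [Matroid.delete_indep_iff, hI.contract_indep_iff]
    rw [Matroid.delete_ground, Matroid.contract_ground] at hJ
    have h1 : Disjoint J D := by
      rw [Set.disjoint_left]
      intro x hx hxD
      exact (hJ hx).2 hxD
    have h2 : Disjoint C J := by
      rw [Set.disjoint_left]
      intro x hxC hx
      exact (hJ hx).1.2 hxC
    tauto

section two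

variable {ι F V : Type*} [Field F] [AddCommGroup V] [Module F V]

theorem card_two (h : Nat.card F = 2) (a : F) : a = 0 ∨ a = 1 := by
  by_contra hne
  push Not at hne
  have h1 : ({0, 1, a} : Set F).ncard = 3 := by
    rw [Set.ncard_eq_three]
    exact ⟨0, 1, a, zero_ne_one, hne.1.symm, hne.2.symm, rfl⟩
  have hfin : Finite F := Nat.finite_of_card_ne_zero (by omega)
  have h2 := Set.ncard_le_card ({0, 1, a} : Set F)
  omega

/-- Over the field with two elements, a third point on a line is the sum of the two others. -/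
theorem third (h2 : Nat.card F = 2) (v : ι → V) (C : Set ι) {x y z : ι}
    (hxC : x ∉ C) (hyC : y ∉ C) (hzC : z ∉ C) (hxy : x ≠ y) (hxz : x ≠ z) (hyz : y ≠ z)
    (i1 : LinearIndepOn F v ({x, y} ∪ C)) (i2 : LinearIndepOn F v ({x, z} ∪ C))
    (i3 : LinearIndepOn F v ({y, z} ∪ C)) (i4 : ¬ LinearIndepOn F v ({x, y, z} ∪ C)) :
    v z - (v x + v y) ∈ span F (v '' C) := by
  have e : ({x, y, z} ∪ C : Set ι) = insert z ({x, y} ∪ C) := by
    ext w; simp; tauto
  have hz : z ∉ ({x, y} ∪ C : Set ι) := by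
    simp [hxz.symm, hyz.symm, hzC]
  have h1 : v z ∈ span F (v '' ({x, y} ∪ C)) := by
    by_contra hne
    apply i4
    rw [e]
    exact i1.insert hne
  have e2 : v '' ({x, y} ∪ C) = insert (v x) (insert (v y) (v '' C)) := by
    rw [Set.image_union, Set.image_pair]
    ext w; simp; tauto
  rw [e2, mem_span_insert] at h1
  obtain ⟨a, u, hu, hz1⟩ := h1
  rw [mem_span_insert] at hu
  obtain ⟨b, s, hs, hu1⟩ := hu
  have ha : a ≠ 0 := by
    rintro rfl
    have e3 : ({y, z} ∪ C : Set ι) = insert z ({y} ∪ C) := by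
      ext w; simp; tauto
    rw [e3] at i3
    have hz' : z ∉ ({y} ∪ C : Set ι) := by simp [hyz.symm, hzC]
    have := (linearIndepOn_insert hz').1 i3
    apply this.2
    rw [Set.image_union, Set.image_singleton, Set.singleton_union, mem_span_insert]
    exact ⟨b, s, hs, by rw [hz1, hu1]; simp⟩
  have hb : b ≠ 0 := by
    rintro rfl
    have e3 : ({x, z} ∪ C : Set ι) = insert z ({x} ∪ C) := by
      ext w; simp; tauto
    rw [e3] at i2
    have hz' : z ∉ ({x} ∪ C : Set ι) := by simp [hxz.symm, hzC]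
    have := (linearIndepOn_insert hz').1 i2
    apply this.2
    rw [Set.image_union, Set.image_singleton, Set.singleton_union, mem_span_insert]
    exact ⟨a, s, hs, by rw [hz1, hu1]; simp⟩
  have ha1 : a = 1 := (card_two h2 a).resolve_left ha
  have hb1 : b = 1 := (card_two h2 b).resolve_left hb
  rw [hz1, hu1, ha1, hb1]
  have : (1 : F) • v x + ((1 : F) • v y + s) - (v x + v y) = s := by
    rw [one_smul, one_smul]; abel
  rw [this]
  exact hs

/-- Four points on a line are impossible. -/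
theorem no_four (h2 : Nat.card F = 2) (v : ι → V) (C : Set ι) {x y z w : ι}
    (hxC : x ∉ C) (hyC : y ∉ C) (hzC : z ∉ C) (hwC : w ∉ C)
    (hxy : x ≠ y) (hxz : x ≠ z) (hyz : y ≠ z) (hxw : x ≠ w) (hyw : y ≠ w) (hzw : z ≠ w)
    (i1 : LinearIndepOn F v ({x, y} ∪ C)) (i2 : LinearIndepOn F v ({x, z} ∪ C))
    (i3 : LinearIndepOn F v ({y, z} ∪ C)) (i4 : ¬ LinearIndepOn F v ({x, y, z} ∪ C))
    (i5 : LinearIndepOn F v ({x, w} ∪ C))
    (i6 : LinearIndepOn F v ({y, w} ∪ C)) (i7 : ¬ LinearIndepOn F v ({x, y, w} ∪ C))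
    (i8 : LinearIndepOn F v ({z, w} ∪ C)) : False := by
  have a1 := third h2 v C hxC hyC hzC hxy hxz hyz i1 i2 i3 i4
  have a2 := third h2 v C hxC hyC hwC hxy hxw hyw i1 i5 i6 i7
  have a3 : v w - v z ∈ span F (v '' C) := by
    have := Submodule.sub_mem _ a2 a1
    have e : v w - (v x + v y) - (v z - (v x + v y)) = v w - v z := by abel
    rwa [e] at this
  have e3 : ({z, w} ∪ C : Set ι) = insert w ({z} ∪ C) := by
    ext u; simp; tauto
  rw [e3] at i8
  have hz' : w ∉ ({z} ∪ C : Set ι) := by simp [hzw.symm, hwC]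
  have := (linearIndepOn_insert hz').1 i8
  apply this.2
  rw [Set.image_union, Set.image_singleton, Set.singleton_union, mem_span_insert]
  exact ⟨1, v w - v z, a3, by rw [one_smul]; abel⟩

end two

/-! ### Truncated binary projective geometries -/

abbrev F2 := ZMod 2

abbrev VV (n : ℕ) := Fin (n + 1) → F2

abbrev Io (n : ℕ) := {x : VV n // x ≠ 0}

def vv (n : ℕ) : Io n → VV n := Subtype.val

theorem top_ne (n : ℕ) : (⊤ : Submodule F2 (VV n)) ≠ ⊥ := top_ne_bot

/-- The truncation of `PG(n,2)` to rank `n`. -/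
def T (n : ℕ) : Matroid (Io n) := mat (vv n) (⊤ : Submodule F2 (VV n)) (top_ne n)

theorem T_indep {n : ℕ} {I : Set (Io n)} : (T n).Indep I ↔
    (LinearIndepOn F2 (vv n) I ∧ ¬ ⊤ ≤ span F2 (vv n '' I)) := Iff.rfl

theorem nat_card : Nat.card F2 = 2 := by simp

/-- The quotient by `span C` has at least four dimensions if some three points do not span. -/
theorem dep_of_not {n : ℕ} {I J : Set (Io n)} (hI : ¬ (T n).Indep I)
    (hsp : ¬ ⊤ ≤ span F2 (vv n '' I)) : ¬ LinearIndepOn F2 (vv n) I := by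
  intro h
  exact hI ⟨h, hsp⟩

theorem finrank_le {n : ℕ} (C J : Set (Io n)) (hJ : J.encard ≤ 3)
    (h : ⊤ ≤ span F2 (vv n '' (J ∪ C))) :
    finrank F2 (VV n ⧸ span F2 (vv n '' C)) ≤ 3 := by
  set S := span F2 (vv n '' C) with hS
  have h1 : (⊤ : Submodule F2 (VV n ⧸ S)) = span F2 ((fun x => S.mkQ (vv n x)) '' J) := by
    have h2 : (⊤ : Submodule F2 (VV n ⧸ S)) = (⊤ : Submodule F2 (VV n)).map S.mkQ := by
      rw [Submodule.map_top, Submodule.range_mkQ]
    rw [h2, ← top_le_iff.1 h, Submodule.map_span, Set.image_union, Set.image_union, span_union]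
    have h3 : span F2 (S.mkQ '' (vv n '' C)) = ⊥ := by
      rw [← Submodule.map_span, ← hS, Submodule.mkQ_map_self]
    rw [h3, sup_bot_eq, ← Set.image_comp]
    rfl
  have hfin : J.Finite := Set.toFinite J
  rw [← finrank_top, h1]
  have : Fintype ((fun x => S.mkQ (vv n x)) '' J) := (hfin.image _).fintype
  have h4 := finrank_span_le_card (R := F2) ((fun x => S.mkQ (vv n x)) '' J)
  refine h4.trans ?_
  rw [Set.toFinset_card, ← Nat.card_eq_fintype_card, Nat.card_coe_set_eq]
  refine (Set.ncard_image_le hfin).trans ?_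
  rw [← hfin.cast_ncard_eq] at hJ
  exact_mod_cast hJ

/-- Two points are different and nonzero in the quotient. -/
theorem mk_ne {n : ℕ} {C : Set (Io n)} {x y : Io n} (hxC : x ∉ C) (hyC : y ∉ C)
    (hxy : x ≠ y) (h : LinearIndepOn F2 (vv n) ({x, y} ∪ C)) :
    (span F2 (vv n '' C)).mkQ (vv n x) ≠ 0 ∧
    (span F2 (vv n '' C)).mkQ (vv n x) ≠ (span F2 (vv n '' C)).mkQ (vv n y) := by
  have e3 : ({x, y} ∪ C : Set (Io n)) = insert y ({x} ∪ C) := by
    ext u; simp; tauto
  have e4 : ({x} ∪ C : Set (Io n)) = insert x C := by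
    ext u; simp
  rw [e3] at h
  have hy' : y ∉ ({x} ∪ C : Set (Io n)) := by simp [hxy.symm, hyC]
  obtain ⟨h1, h2⟩ := (linearIndepOn_insert hy').1 h
  rw [e4] at h1
  obtain ⟨h3, h4⟩ := (linearIndepOn_insert hxC).1 h1
  constructor
  · rw [Ne, Submodule.mkQ_apply, Submodule.Quotient.mk_eq_zero]
    exact h4
  · intro h5
    apply h2
    rw [Submodule.mkQ_apply, Submodule.mkQ_apply, Submodule.Quotient.eq] at h5
    rw [Set.image_union, Set.image_singleton, Set.singleton_union, mem_span_insert]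
    refine ⟨1, -(vv n x - vv n y), Submodule.neg_mem _ h5, ?_⟩
    rw [one_smul]; abel

theorem exists_four {α : Type} {E : Set α} (h : 4 ≤ E.encard) : ∃ x ∈ E, ∃ y ∈ E, ∃ z ∈ E,
    ∃ w ∈ E, x ≠ y ∧ x ≠ z ∧ y ≠ z ∧ x ≠ w ∧ y ≠ w ∧ z ≠ w := by
  classical
  obtain ⟨t, ht, hc⟩ := Set.exists_subset_encard_eq h
  have hfin : t.Finite := Set.finite_of_encard_eq_coe hc
  have hc' : hfin.toFinset.card = 4 := by
    rw [hfin.encard_eq_coe_toFinset_card] at hc
    exact_mod_cast hc
  obtain ⟨x, y, z, w, h1, h2, h3, h4, h5, h6, h7⟩ := Finset.card_eq_four.1 hc'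
  have hm : ∀ u, u ∈ hfin.toFinset → u ∈ E := fun u hu => ht (hfin.mem_toFinset.1 hu)
  refine ⟨x, hm x ?_, y, hm y ?_, z, hm z ?_, w, hm w ?_, h1, h2, h4, h3, h5, h6⟩ <;>
    rw [h7] <;> simp

theorem pair_le {α : Type} (x y : α) : ({x, y} : Set α).encard ≤ 2 := by
  refine (Set.encard_insert_le _ _).trans ?_
  rw [Set.encard_singleton]
  norm_num

theorem triple_gt {α : Type} {x y z : α} (hxy : x ≠ y) (hxz : x ≠ z) (hyz : y ≠ z) :
    ¬ ({x, y, z} : Set α).encard ≤ 2 := by
  rw [Set.encard_eq_three.2 ⟨x, y, z, hxy, hxz, hyz, rfl⟩]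
  norm_num

theorem triple_le {α : Type} (x y z : α) : ({x, y, z} : Set α).encard ≤ 3 := by
  refine (Set.encard_insert_le _ _).trans ?_
  refine (add_le_add_left (pair_le y z) 1).trans ?_
  norm_num

/-- `T n` has no 8-point line as a minor. -/
theorem T_inU (n : ℕ) : InU 6 (T n) := by
  intro N hN hL
  obtain ⟨C, hdisj, hC⟩ := minor_indep hN
  obtain ⟨hE, hind⟩ := hL
  have notC : ∀ x ∈ N.E, x ∉ C := fun x hx hxC => Set.disjoint_left.1 hdisj hx hxC
  have hp : ∀ x ∈ N.E, ∀ y ∈ N.E, (T n).Indep ({x, y} ∪ C) := by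
    intro x hx y hy
    have hs : ({x, y} : Set (Io n)) ⊆ N.E := by
      intro u hu; rcases hu with rfl | rfl
      · exact hx
      · exact hy
    exact (hC _ hs).1 ((hind _ hs).2 (pair_le x y))
  have ht : ∀ x ∈ N.E, ∀ y ∈ N.E, ∀ z ∈ N.E, x ≠ y → x ≠ z → y ≠ z →
      ¬ (T n).Indep ({x, y, z} ∪ C) := by
    intro x hx y hy z hz h1 h2 h3 h4
    have hs : ({x, y, z} : Set (Io n)) ⊆ N.E := by
      intro u hu; rcases hu with rfl | rfl | rfl
      · exact hx
      · exact hy
      · exact hz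
    exact triple_gt h1 h2 h3 ((hind _ hs).1 ((hC _ hs).2 h4))
  by_cases hq : finrank F2 (VV n ⧸ span F2 (vv n '' C)) ≤ 3
  · -- at most seven nonzero vectors
    set S := span F2 (vv n '' C) with hS
    have hinj : Set.InjOn (fun x => S.mkQ (vv n x)) N.E := by
      intro x hx y hy hxy
      by_contra hne
      exact (mk_ne (notC x hx) (notC y hy) hne (hp x hx y hy).1).2 hxy
    have hnz : ∀ x ∈ N.E, S.mkQ (vv n x) ≠ 0 := by
      intro x hx
      obtain ⟨y, hy, hne⟩ : ∃ y ∈ N.E, y ≠ x := by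
        have h8 : 1 < N.E.encard := by rw [hE]; norm_num
        obtain ⟨a, b, ha, hb, hab⟩ := Set.one_lt_encard_iff.1 h8
        by_cases h : a = x
        · exact ⟨b, hb, by rw [← h]; exact hab.symm⟩
        · exact ⟨a, ha, h⟩
      exact (mk_ne (notC x hx) (notC y hy) hne.symm (hp x hx y hy).1).1
    have hcard : Nat.card (VV n ⧸ S) ≤ 8 := by
      rw [Module.natCard_eq_pow_finrank (K := F2), nat_card]
      calc 2 ^ finrank F2 (VV n ⧸ S) ≤ 2 ^ 3 := Nat.pow_le_pow_right (by norm_num) hq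
        _ = 8 := by norm_num
    have hN8 : N.E.ncard = 8 := by rw [Set.ncard, hE]; rfl
    have h1 : ((fun x => S.mkQ (vv n x)) '' N.E).ncard = 8 := by
      rw [Set.ncard_image_of_injOn hinj, hN8]
    have h0 : (0 : VV n ⧸ S) ∉ ((fun x => S.mkQ (vv n x)) '' N.E) := by
      rintro ⟨x, hx, h⟩
      exact hnz x hx h
    have h2 : (insert 0 ((fun x => S.mkQ (vv n x)) '' N.E)).ncard = 9 := by
      rw [Set.ncard_insert_of_notMem h0 (Set.toFinite _), h1]
    have h3 := Set.ncard_le_card (insert 0 ((fun x => S.mkQ (vv n x)) '' N.E))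
    omega
  · -- four points on a line
    have h4 : (4 : ℕ∞) ≤ N.E.encard := by rw [hE]; norm_num
    obtain ⟨x, hx, y, hy, z, hz, w, hw, h1, h2, h3, h5, h6, h7⟩ := exists_four h4
    have hdep : ∀ x ∈ N.E, ∀ y ∈ N.E, ∀ z ∈ N.E, x ≠ y → x ≠ z → y ≠ z →
        ¬ LinearIndepOn F2 (vv n) ({x, y, z} ∪ C) := by
      intro x hx y hy z hz h1 h2 h3 hli
      apply hq
      apply finrank_le C {x, y, z} (triple_le x y z)
      by_contra hsp
      exact ht x hx y hy z hz h1 h2 h3 ⟨hli, hsp⟩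
    exact no_four nat_card (vv n) C (notC x hx) (notC y hy) (notC z hz) (notC w hw) h1 h2 h3 h5 h6
      h7 (hp x hx y hy).1 (hp x hx z hz).1 (hp y hy z hz).1 (hdep x hx y hy z hz h1 h2 h3)
      (hp x hx w hw).1 (hp y hy w hw).1 (hdep x hx y hy w hw h1 h5 h6) (hp z hz w hw).1

/-! ### The excluded minor -/

/-- The direct sum of `U_{2,4}` (on `0,1,2,3`) and a coloop `4`: a set is independent if it contains
at most two of `0,1,2,3`. -/
def M0 : Matroid (Fin 5) :=
  (IndepMatroid.ofFinset (Set.univ : Set (Fin 5))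
    (fun I => (I.filter (fun i => i ≠ 4)).card ≤ 2) (by decide)
    (fun I J hJ hIJ => (Finset.card_le_card (Finset.filter_subset_filter _ hIJ)).trans hJ)
    (by decide)
    (fun _ _ => Set.subset_univ _)).matroid

theorem M0_E : M0.E = Set.univ := rfl

theorem M0_indep_finset {I : Finset (Fin 5)} : M0.Indep (I : Set (Fin 5)) ↔
    (I.filter (fun i => i ≠ 4)).card ≤ 2 := by
  unfold M0
  simp

theorem M0_indep {I : Set (Fin 5)} : M0.Indep I ↔ (I \ {4}).ncard ≤ 2 := by
  classical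
  obtain ⟨J, rfl⟩ : ∃ J : Finset (Fin 5), (J : Set (Fin 5)) = I :=
    ⟨(Set.toFinite I).toFinset, (Set.toFinite I).coe_toFinset⟩
  rw [M0_indep_finset]
  have : ((J : Set (Fin 5)) \ {4}) = ((J.filter (fun i => i ≠ 4) : Finset (Fin 5)) : Set (Fin 5)) := by
    ext x; simp
  rw [this, Set.ncard_coe_finset]

theorem M0_inU : InU 6 M0 := by
  intro N hN hL
  have h1 : N.E.encard = 8 := by rw [hL.1]; rfl
  have h2 : N.E.encard ≤ (Set.univ : Set (Fin 5)).encard := Set.encard_le_encard (Set.subset_univ _)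
  rw [h1, Set.encard_univ] at h2
  simp at h2
  exact absurd h2 (by decide)

/-- no truncated binary geometry has `M0` as a minor -/
theorem T_noM0 (n : ℕ) : ¬ HasMinor (T n) M0 := by
  rintro ⟨N, hN, e, he⟩
  obtain ⟨C, hdisj, hC⟩ := minor_indep hN
  -- the elements
  let x : Fin 5 → Io n := fun i => (e ⟨i, Set.mem_univ i⟩ : N.E)
  have hx : ∀ i, x i ∈ N.E := fun i => (e ⟨i, Set.mem_univ i⟩).2
  have hinj : Function.Injective x := by
    intro i j hij
    have h1 : e ⟨i, Set.mem_univ i⟩ = e ⟨j, Set.mem_univ j⟩ := Subtype.ext hij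
    have h2 := e.injective h1
    exact congrArg Subtype.val h2
  have hind : ∀ I : Finset (Fin 5), (T n).Indep (x '' (I : Set (Fin 5)) ∪ C) ↔
      (I.filter (fun i => i ≠ 4)).card ≤ 2 := by
    intro I
    have h1 : x '' (I : Set (Fin 5)) ⊆ N.E := by
      rintro _ ⟨i, _, rfl⟩; exact hx i
    rw [← hC _ h1, ← M0_indep_finset]
    have h2 := he (Subtype.val ⁻¹' (I : Set (Fin 5)))
    have h3 : (Subtype.val '' (Subtype.val ⁻¹' (I : Set (Fin 5)) : Set M0.E)) =
        (I : Set (Fin 5)) := by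
      rw [Subtype.image_preimage_coe, M0_E, Set.univ_inter]
    have h4 : (Subtype.val '' (e '' (Subtype.val ⁻¹' (I : Set (Fin 5)) : Set M0.E)) :
        Set (Io n)) = x '' (I : Set (Fin 5)) := by
      ext u
      constructor
      · rintro ⟨_, ⟨⟨i, hi⟩, hiI, rfl⟩, rfl⟩
        exact ⟨i, hiI, rfl⟩
      · rintro ⟨i, hiI, rfl⟩
        exact ⟨_, ⟨⟨i, Set.mem_univ i⟩, hiI, rfl⟩, rfl⟩
    rw [h3, h4] at h2
    exact h2.symm
  have notC : ∀ i, x i ∉ C := fun i hxC => Set.disjoint_left.1 hdisj (hx i) hxC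
  have hp : ∀ i j : Fin 5, (T n).Indep ({x i, x j} ∪ C) := by
    intro i j
    have := (hind {i, j}).2 (by revert i j; decide)
    rw [Finset.coe_pair, Set.image_pair] at this
    exact this
  have hd : ∀ i j k : Fin 5, i ≠ 4 → j ≠ 4 → k ≠ 4 → i ≠ j → i ≠ k → j ≠ k →
      ¬ (T n).Indep ({x i, x j, x k} ∪ C) := by
    intro i j k h1 h2 h3 h4 h5 h6 h
    have := (hind {i, j, k}).1 (by
      have e1 : x '' (({i, j, k} : Finset (Fin 5)) : Set (Fin 5)) = {x i, x j, x k} := by
        simp [Set.image_insert_eq, Set.image_pair]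
      rw [e1]
      exact h)
    have aux : ∀ i j k : Fin 5, i ≠ 4 → j ≠ 4 → k ≠ 4 → i ≠ j → i ≠ k → j ≠ k →
        ¬ (({i, j, k} : Finset (Fin 5)).filter (fun i => i ≠ 4)).card ≤ 2 := by decide
    exact aux i j k h1 h2 h3 h4 h5 h6 this
  -- three independent elements which do not span: the quotient has dimension at least four
  have hq : ∀ i j k : Fin 5, ¬ ⊤ ≤ span F2 (vv n '' ({x i, x j, x k} ∪ C)) := by
    have h1 := (hind {0, 1, 4}).2 (by decide)
    have e1 : x '' (({0, 1, 4} : Finset (Fin 5)) : Set (Fin 5)) = {x 0, x 1, x 4} := by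
      simp [Set.image_insert_eq, Set.image_pair]
    rw [e1] at h1
    have h2 := h1.1
    intro i j k hsp
    apply h1.2
    have a1 := finrank_span_eq h2
    have a2 : ({x 0, x 1, x 4} ∪ C : Set (Io n)).ncard = 3 + C.ncard := by
      rw [Set.ncard_union_eq _ (Set.toFinite _) (Set.toFinite _),
        Set.ncard_eq_three.2 ⟨x 0, x 1, x 4, hinj.ne (by decide), hinj.ne (by decide),
          hinj.ne (by decide), rfl⟩]
      rw [Set.disjoint_left]
      rintro u (rfl | rfl | rfl)
      · exact notC 0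
      · exact notC 1
      · exact notC 4
    have a3 : finrank F2 (VV n) ≤ 3 + C.ncard := by
      have a4 := top_le_iff.1 hsp
      rw [← finrank_top F2 (VV n), ← a4]
      have : Fintype (vv n '' ({x i, x j, x k} ∪ C)) := (Set.toFinite _).fintype
      refine (finrank_span_le_card (R := F2) (vv n '' ({x i, x j, x k} ∪ C))).trans ?_
      rw [Set.toFinset_card, ← Nat.card_eq_fintype_card, Nat.card_coe_set_eq]
      refine (Set.ncard_image_le (Set.toFinite _)).trans ?_
      refine (Set.ncard_union_le _ _).trans ?_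
      have a5 : ({x i, x j, x k} : Set (Io n)).ncard ≤ 3 := by
        have a6 := triple_le (x i) (x j) (x k)
        rw [← (Set.toFinite ({x i, x j, x k} : Set (Io n))).cast_ncard_eq] at a6
        exact_mod_cast a6
      omega
    rw [top_le_iff]
    apply Submodule.eq_top_of_finrank_eq
    apply le_antisymm (Submodule.finrank_le _)
    rw [a1, a2]
    exact a3
  have hdep : ∀ i j k : Fin 5, i ≠ 4 → j ≠ 4 → k ≠ 4 → i ≠ j → i ≠ k → j ≠ k →
      ¬ LinearIndepOn F2 (vv n) ({x i, x j, x k} ∪ C) := by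
    intro i j k h1 h2 h3 h4 h5 h6 hli
    exact hd i j k h1 h2 h3 h4 h5 h6 ⟨hli, hq i j k⟩
  exact no_four nat_card (vv n) C (notC 0) (notC 1) (notC 2) (notC 3)
    (hinj.ne (by decide)) (hinj.ne (by decide)) (hinj.ne (by decide)) (hinj.ne (by decide))
    (hinj.ne (by decide)) (hinj.ne (by decide))
    (hp 0 1).1 (hp 0 2).1 (hp 1 2).1
    (hdep 0 1 2 (by decide) (by decide) (by decide) (by decide) (by decide) (by decide))
    (hp 0 3).1 (hp 1 3).1
    (hdep 0 1 3 (by decide) (by decide) (by decide) (by decide) (by decide) (by decide))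
    (hp 2 3).1

end Pool.Agent.R692.SZ
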