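import Mathlib
import Pool.Agent.R692.SZ.Main

set_option autoImplicit false

namespace Pool.Agent.R692.SZ

open scoped Matroid
open Pool.Agent.H594R3.TM Module Submodule

theorem M0_not_binary : ¬ Repr 2 M0 := by
  rintro ⟨F, _, W, _, _, v, hF, hrep⟩
  have hrep' : ∀ I : Finset (Fin 5), LinearIndepOn F v (I : Set (Fin 5)) ↔
      (I.filter (fun i => i ≠ 4)).card ≤ 2 := by
    intro I
    rw [← hrep _ (Set.subset_univ _), M0_indep_finset]
  have hp : ∀ i j : Fin 5, LinearIndepOn F v ({i, j} ∪ ∅) := by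
    intro i j
    have := (hrep' {i, j}).2 (by revert i j; decide)
    rw [Finset.coe_pair] at this
    rwa [Set.union_empty]
  have hd : ∀ i j k : Fin 5, i ≠ 4 → j ≠ 4 → k ≠ 4 → i ≠ j → i ≠ k → j ≠ k →
      ¬ LinearIndepOn F v ({i, j, k} ∪ ∅) := by
    intro i j k h1 h2 h3 h4 h5 h6 h
    rw [Set.union_empty] at h
    have := (hrep' {i, j, k}).1 (by simpa using h)
    have aux : ∀ i j k : Fin 5, i ≠ 4 → j ≠ 4 → k ≠ 4 → i ≠ j → i ≠ k → j ≠ k →
        ¬ (({i, j, k} : Finset (Fin 5)).filter (fun i => i ≠ 4)).card ≤ 2 := by decide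
    exact aux i j k h1 h2 h3 h4 h5 h6 this
  exact no_four (F := F) hF v ∅ (x := 0) (y := 1) (z := 2) (w := 3)
    (Set.notMem_empty _) (Set.notMem_empty _) (Set.notMem_empty _) (Set.notMem_empty _)
    (by decide) (by decide) (by decide) (by decide) (by decide) (by decide)
    (hp 0 1) (hp 0 2) (hp 1 2)
    (hd 0 1 2 (by decide) (by decide) (by decide) (by decide) (by decide) (by decide))
    (hp 0 3) (hp 1 3)
    (hd 0 1 3 (by decide) (by decide) (by decide) (by decide) (by decide) (by decide))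
    (hp 2 3)

section rep

variable {F : Type} [Field F] (t : F)

/-- the representation -/
def rv : Fin 5 → (Fin 3 → F) :=
  ![![1, 0, 0], ![0, 1, 0], ![1, 1, 0], ![1, t, 0], ![0, 0, 1]]

theorem sum_rv (c : Fin 5 → F) : ∑ i, c i • rv t i =
    ![c 0 + c 2 + c 3, c 1 + c 2 + t * c 3, c 4] := by
  ext i
  fin_cases i <;> simp [Fin.sum_univ_five, rv] <;> ring

theorem sum_rv_eq_zero (c : Fin 5 → F) : ∑ i, c i • rv t i = 0 ↔
    (c 0 + c 2 + c 3 = 0 ∧ c 1 + c 2 + t * c 3 = 0 ∧ c 4 = 0) := by
  rw [sum_rv]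
  constructor
  · intro h
    exact ⟨congrFun h 0, congrFun h 1, congrFun h 2⟩
  · rintro ⟨h1, h2, h3⟩
    ext i
    fin_cases i
    · exact h1
    · exact h2
    · exact h3

theorem linInd_iff (I : Finset (Fin 5)) : LinearIndepOn F (rv t) (I : Set (Fin 5)) ↔
    ∀ c : Fin 5 → F, (∀ i, i ∉ I → c i = 0) → c 0 + c 2 + c 3 = 0 → c 1 + c 2 + t * c 3 = 0 →
      c 4 = 0 → ∀ i, c i = 0 := by
  rw [linearIndepOn_finset_iff]
  constructor
  · intro h c hc h1 h2 h3 i
    have h4 := (sum_rv_eq_zero t c).2 ⟨h1, h2, h3⟩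
    by_cases hi : i ∈ I
    · apply h c ?_ i hi
      rw [← h4]
      apply Finset.sum_subset (Finset.subset_univ _)
      intro x _ hx
      rw [hc x hx, zero_smul]
    · exact hc i hi
  · intro h c hc i hi
    let c' : Fin 5 → F := fun i => if i ∈ I then c i else 0
    have h1 : ∑ i, c' i • rv t i = 0 := by
      rw [← hc]
      rw [← Finset.sum_subset (Finset.subset_univ I)]
      · apply Finset.sum_congr rfl
        intro x hx
        simp [c', hx]
      · intro x _ hx
        simp [c', hx]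
    obtain ⟨h2, h3, h4⟩ := (sum_rv_eq_zero t c').1 h1
    have := h c' (fun i hi => by simp [c', hi]) h2 h3 h4 i
    simpa [c', hi] using this

theorem M0_repr (h0 : t ≠ 0) (h1 : t ≠ 1) : Repr (Nat.card F) M0 := by
  refine ⟨F, inferInstance, Fin 3 → F, inferInstance, inferInstance, rv t, rfl, ?_⟩
  intro I _
  obtain ⟨J, rfl⟩ : ∃ J : Finset (Fin 5), (J : Set (Fin 5)) = I :=
    ⟨(Set.toFinite I).toFinset, (Set.toFinite I).coe_toFinset⟩
  rw [M0_indep_finset, linInd_iff]
  have h1' : t - 1 ≠ 0 := sub_ne_zero.2 h1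
  constructor
  · intro hJ c hc e1 e2 e3
    -- two of the first four coordinates vanish
    have key : ∀ J : Finset (Fin 5), (J.filter (fun i => i ≠ 4)).card ≤ 2 →
        (0 ∉ J ∧ 1 ∉ J) ∨ (0 ∉ J ∧ 2 ∉ J) ∨ (0 ∉ J ∧ 3 ∉ J) ∨ (1 ∉ J ∧ 2 ∉ J) ∨
        (1 ∉ J ∧ 3 ∉ J) ∨ (2 ∉ J ∧ 3 ∉ J) := by decide
    have hall : c 0 = 0 ∧ c 1 = 0 ∧ c 2 = 0 ∧ c 3 = 0 := by
      rcases key J hJ with ⟨a, b⟩ | ⟨a, b⟩ | ⟨a, b⟩ | ⟨a, b⟩ | ⟨a, b⟩ | ⟨a, b⟩ <;>
        have ha := hc _ a <;> have hb := hc _ b <;> simp only [ha, hb] at e1 e2 ⊢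
      · have e4 : (t - 1) * c 3 = 0 := by linear_combination e2 - e1
        have e5 : c 3 = 0 := (mul_eq_zero.1 e4).resolve_left h1'
        have e6 : c 2 = 0 := by rw [e5] at e1; simpa using e1
        simp [e5, e6]
      · have e5 : c 3 = 0 := by simpa using e1
        have e6 : c 1 = 0 := by rw [e5] at e2; simpa using e2
        simp [e5, e6]
      · have e5 : c 2 = 0 := by simpa using e1
        have e6 : c 1 = 0 := by rw [e5] at e2; simpa using e2
        simp [e5, e6]
      · have e5 : c 3 = 0 := by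
          have : t * c 3 = 0 := by simpa using e2
          exact (mul_eq_zero.1 this).resolve_left h0
        have e6 : c 0 = 0 := by rw [e5] at e1; simpa using e1
        simp [e5, e6]
      · have e5 : c 2 = 0 := by simpa using e2
        have e6 : c 0 = 0 := by rw [e5] at e1; simpa using e1
        simp [e5, e6]
      · have e5 : c 0 = 0 := by simpa using e1
        have e6 : c 1 = 0 := by simpa using e2
        simp [e5, e6]
    intro i
    fin_cases i
    · exact hall.1
    · exact hall.2.1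
    · exact hall.2.2.1
    · exact hall.2.2.2
    · exact e3
  · intro h
    by_contra hJ
    have key : ∀ J : Finset (Fin 5), ¬ (J.filter (fun i => i ≠ 4)).card ≤ 2 →
        (0 ∈ J ∧ 1 ∈ J ∧ 2 ∈ J) ∨ (0 ∈ J ∧ 1 ∈ J ∧ 3 ∈ J) ∨ (0 ∈ J ∧ 2 ∈ J ∧ 3 ∈ J) ∨
        (1 ∈ J ∧ 2 ∈ J ∧ 3 ∈ J) := by decide
    rcases key J hJ with ⟨a, b, d⟩ | ⟨a, b, d⟩ | ⟨a, b, d⟩ | ⟨a, b, d⟩
    · have := h ![1, 1, -1, 0, 0] (by
        intro i hi
        fin_cases i
        · exact absurd a hi
        · exact absurd b hi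
        · exact absurd d hi
        · rfl
        · rfl) (by simp) (by simp) (by simp) 0
      simp at this
    · have := h ![1, t, 0, -1, 0] (by
        intro i hi
        fin_cases i
        · exact absurd a hi
        · exact absurd b hi
        · rfl
        · exact absurd d hi
        · rfl) (by simp) (by simp) (by simp) 0
      simp at this
    · have := h ![t - 1, 0, -t, 1, 0] (by
        intro i hi
        fin_cases i
        · exact absurd a hi
        · rfl
        · exact absurd b hi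
        · exact absurd d hi
        · rfl) (by simp <;> ring) (by simp <;> ring) (by simp) 3
      simp at this
    · have := h ![0, 1 - t, -1, 1, 0] (by
        intro i hi
        fin_cases i
        · rfl
        · exact absurd a hi
        · exact absurd b hi
        · exact absurd d hi
        · rfl) (by simp <;> ring) (by simp <;> ring) (by simp) 3
      simp at this

end rep

theorem M0_repr3 : Repr 3 M0 := by
  have h : Repr (Nat.card (ZMod 3)) M0 := M0_repr (F := ZMod 3) 2 (by decide) (by decide)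
  rwa [Nat.card_zmod] at h

instance fact5 : Fact (Nat.Prime 5) := ⟨by norm_num⟩

theorem M0_repr5 : Repr 5 M0 := by
  have h : Repr (Nat.card (ZMod 5)) M0 := M0_repr (F := ZMod 5) 2 (by decide) (by decide)
  rwa [Nat.card_zmod] at h

theorem M0_repr4 : Repr 4 M0 := by
  have hc : Nat.card (GaloisField 2 2) = 4 := by
    rw [GaloisField.card 2 2 (by norm_num)]; norm_num
  obtain ⟨t, h0, h1⟩ : ∃ t : GaloisField 2 2, t ≠ 0 ∧ t ≠ 1 := by
    by_contra hne
    push Not at hne
    have h2 : ({0, 1} : Set (GaloisField 2 2)) = Set.univ := by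
      ext x
      simp only [Set.mem_insert_iff, Set.mem_singleton_iff, Set.mem_univ, iff_true]
      by_cases hx : x = 0
      · exact Or.inl hx
      · exact Or.inr (hne x hx)
    have h3 : (Set.univ : Set (GaloisField 2 2)).ncard = 4 := by rw [Set.ncard_univ, hc]
    rw [← h2, Set.ncard_pair zero_ne_one] at h3
    omega
  have h := M0_repr t h0 h1
  rwa [hc] at h

/-! ### Rank and number of points of `T n` -/

theorem span_vv (n : ℕ) : span F2 (vv n '' Set.univ) = ⊤ := by
  rw [Set.image_univ]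
  rw [eq_top_iff]
  intro x _
  by_cases hx : x = 0
  · rw [hx]; exact zero_mem _
  · exact subset_span ⟨⟨x, hx⟩, rfl⟩

theorem T_rank (n : ℕ) : (T n).eRank = n := by
  rw [← Matroid.eRk_univ_eq]
  unfold T
  rw [eRk_eq]
  unfold r
  rw [span_vv, if_pos le_rfl, finrank_top, Module.finrank_fin_fun]
  simp

theorem single_flat (n : ℕ) (hn : 2 ≤ n) (x : Io n) :
    (T n).IsFlat {x} ∧ (T n).eRk {x} = 1 := by
  classical
  have hfr : finrank F2 (VV n) = n + 1 := Module.finrank_fin_fun _
  have h1 : finrank F2 (span F2 (vv n '' {x})) = 1 := by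
    rw [Set.image_singleton]
    exact finrank_span_singleton x.2
  constructor
  · unfold T
    rw [isFlat_iff]
    intro e he
    constructor
    · rw [Set.image_singleton, mem_span_singleton]
      rintro ⟨a, ha⟩
      rcases card_two nat_card a with h | h
      · rw [h, zero_smul] at ha
        exact e.2 ha.symm
      · rw [h, one_smul] at ha
        exact he (Subtype.ext ha.symm)
    · intro h
      exfalso
      have h2 : finrank F2 (↥(span F2 (vv n '' {x}) ⊔ span F2 {vv n e})) ≤ 2 := by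
        refine (Submodule.finrank_add_le_finrank_add_finrank _ _).trans ?_
        rw [h1]
        have := finrank_span_singleton (K := F2) (v := vv n e) e.2
        rw [this]
      rw [top_le_iff.1 h, finrank_top, hfr] at h2
      omega
  · unfold T
    rw [eRk_eq]
    unfold r
    rw [h1, if_neg]
    · rfl
    · intro h
      rw [top_le_iff.1 h, finrank_top, hfr] at h1
      omega

theorem card_Io (n : ℕ) : (Set.univ : Set (Io n)).encard = ((2 ^ (n + 1) - 1 : ℕ) : ℕ∞) := by
  have h1 : Nat.card (Io n) = 2 ^ (n + 1) - 1 := by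
    rw [Nat.card_eq_fintype_card, Fintype.card_subtype_compl, Fintype.card_subtype_eq]
    simp
  rw [Set.encard_univ, ENat.card_eq_coe_natCard, h1]

theorem T_points (n : ℕ) (hn : 2 ≤ n) : ((2 ^ (n + 1) - 1 : ℕ) : ℕ∞) ≤ points (T n) := by
  rw [← card_Io, ← (Set.singleton_injective (α := Io n)).encard_image]
  apply Set.encard_le_encard
  rintro _ ⟨x, _, rfl⟩
  exact single_flat n hn x

end Pool.Agent.R692.SZ
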